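import Pool.Agent.Lib.EAF80.Dom

/-! Colouring group by group. -/

set_option autoImplicit false
open Finset Filter Topology

namespace Pool.Agent.Lib.EAF80
open Pool.Agent.Lib.MP_eaf82e_pr

lemma avail_anti {V κ : Type*} [Fintype V] [LinearOrder V] [DecidableEq κ] {c : V → κ}
    {mq : κ → ℕ} {u : ℝ} {ω ω' : Edge V → Bool} (h : ω ≤ ω') (h' : Avail c mq u ω') :
    Avail c mq u ω := by
  intro U hU
  obtain ⟨T, h1, h2, h3⟩ := h' U hU
  refine ⟨T, h1, fun e he => ?_, h3⟩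
  have := h e
  rw [h2 e he] at this
  exact le_bot_iff.1 this

lemma wt_sg {n M : ℕ} (hn : 2 ≤ n) (hM : n ^ 5 ≤ M) (e : Edge (Fin n)) :
    1 / (M : ℝ) ≤ wt (qq fun _ _ => 4 / (M : ℝ)) (sg e) := by
  have hn' : (2 : ℝ) ≤ n := by exact_mod_cast hn
  have hM' : (n : ℝ) ^ 5 ≤ M := by exact_mod_cast hM
  have h8 : 8 * (n : ℝ) ^ 2 ≤ M := by
    have : (2 : ℝ) ^ 3 ≤ (n : ℝ) ^ 3 := by gcongr
    nlinarith [sq_nonneg (n : ℝ)]
  have h4 : (4 : ℝ) ≤ M := by nlinarith
  obtain ⟨a, ha⟩ : ∃ a : ℝ, a = 4 / (M : ℝ) := ⟨_, rfl⟩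
  rw [← ha]
  have ha0 : 0 < a := by rw [ha]; positivity
  have ha1 : a ≤ 1 := by rw [ha, div_le_one (by linarith)]; exact h4
  have hq := isP_qq (V := Fin n) (w := fun _ _ => a) fun _ _ => ha0.le
  have h1 : ∀ e', qq (fun _ _ : Fin n => a) e' ≤ a := fun e' => by
    unfold qq; linarith [Real.add_one_le_exp (-a)]
  have h2 : a / 2 ≤ qq (fun _ _ : Fin n => a) e := by
    unfold qq
    have h3 := Real.add_one_le_exp a
    have h5 : Real.exp (-a) * Real.exp a = 1 := by rw [← Real.exp_add]; simp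
    have h6 := Real.exp_pos (-a)
    nlinarith [mul_le_mul_of_nonneg_left h3 h6.le]
  have hN : (Fintype.card (Edge (Fin n)) : ℝ) ≤ (n : ℝ) ^ 2 := by
    have := Fintype.card_subtype_le (fun p : Fin n × Fin n => p.1 < p.2)
    rw [Fintype.card_prod, Fintype.card_fin, ← sq] at this
    exact_mod_cast this
  have h3 := one_sub_sum_le_prod (univ.erase e) (qq fun _ _ : Fin n => a) (fun k => (hq k).1)
    (fun k => (hq k).2)
  have h5 : ∑ k ∈ univ.erase e, qq (fun _ _ : Fin n => a) k ≤ 1 / 2 := by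
    calc _ ≤ ∑ _k ∈ univ.erase e, a := Finset.sum_le_sum fun k _ => h1 k
      _ ≤ ∑ _k : Edge (Fin n), a := Finset.sum_le_sum_of_subset_of_nonneg
          (Finset.erase_subset _ _) fun _ _ _ => ha0.le
      _ ≤ (n : ℝ) ^ 2 * a := by
          simp only [Finset.sum_const, Finset.card_univ, nsmul_eq_mul]; gcongr
      _ ≤ _ := by rw [ha, ← mul_div_assoc, div_le_iff₀ (by linarith)]; linarith
  unfold wt
  rw [← Finset.mul_prod_erase _ _ (Finset.mem_univ e), if_pos (by simp [sg]),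
    Finset.prod_congr rfl fun e' he' => if_neg (by simpa [sg] using Finset.ne_of_mem_erase he')]
  calc 1 / (M : ℝ) = a / 2 * (1 / 2) := by rw [ha]; ring
    _ ≤ _ := mul_le_mul h2 (by linarith) (by norm_num) (hq e).1

lemma cheap_fin {δ : ℝ} (hδ : 0 < δ) : ∀ᶠ n : ℕ in atTop, ∀ M : ℕ, n ^ 5 ≤ M →
    ∑ u : Fin M → Fin n → Fin M, Pr (qq fun _ _ => 1) (fun ω => ¬ Avail (fun _ => ())
      (fun _ => ⌊Real.log n / 5⌋₊) (n / Real.log n ^ 2) (conf u ⊔ ω)) ≤ ((M : ℝ) ^ n) ^ M * δ := by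
  have hn : Tendsto (fun n : ℕ => (n : ℝ)) atTop atTop := tendsto_natCast_atTop_atTop
  filter_upwards [leftover 5 (1 / 2) (δ / 2) (by norm_num) (by norm_num) le_rfl (by positivity),
    eventually_ge_atTop 2, hn.eventually_ge_atTop (2 / δ)] with n h1 h2 h3 M hM
  have hn' : (2 : ℝ) ≤ n := by exact_mod_cast h2
  have hM' : (n : ℝ) ^ 5 ≤ M := by exact_mod_cast hM
  have hM0 : (0 : ℝ) < M := lt_of_lt_of_le (by positivity) hM'
  have hq := isP_qq (V := Fin n) (w := fun _ _ => 1) fun _ _ => zero_le_one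
  refine (hybrid (by exact_mod_cast hM0) (by positivity) (wt_sg h2 hM) M
    (fun η => Pr (qq fun _ _ => 1) (fun ω => ¬ Avail (fun _ => ())
      (fun _ => ⌊Real.log n / 5⌋₊) (n / Real.log n ^ 2) (η ⊔ ω)))
    (fun _ _ h => Pr_mono hq fun ω h4 h5 => h4 (avail_anti (sup_le_sup_right h _) h5))
    (fun _ => Pr_nonneg hq _) (fun _ => Pr_le_one hq _)).trans ?_
  refine mul_le_mul_of_nonneg_left ?_ (by positivity)
  have h4 := Ex_sup (qq fun _ _ : Fin n => (M : ℝ) * (4 / M)) (qq fun _ _ => 1)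
    (fun ω => one (¬ Avail (fun _ => ()) (fun _ => ⌊Real.log n / 5⌋₊) (n / Real.log n ^ 2) ω))
  have h5 : (fun e : Edge (Fin n) => 1 - (1 - qq (fun _ _ => (M : ℝ) * (4 / M)) e) *
      (1 - qq (fun _ _ => 1) e)) = qq fun _ _ => 5 := by
    ext e
    simp only [qq, sub_sub_cancel, ← Real.exp_add]
    congr 2; field_simp; ring
  rw [h5] at h4
  have h6 := h1 (fun _ _ => 5) (fun _ _ => by norm_num) (fun _ _ => rfl) fun _ _ => le_rfl
  have h7 : (M : ℝ) * ((n : ℝ) ^ 4 / (M : ℝ) ^ 2) ≤ δ / 2 := by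
    rw [div_le_iff₀ hδ] at h3
    calc _ = (n : ℝ) ^ 4 / M := by field_simp
      _ ≤ (n : ℝ) ^ 4 / (n : ℝ) ^ 5 := by gcongr
      _ = 1 / n := by field_simp
      _ ≤ _ := by rw [div_le_iff₀ (by linarith)]; linarith
  unfold Pr at h6 ⊢
  linarith

lemma chi_groups {V κ : Type*} [Fintype V] [LinearOrder V] [Fintype κ] [DecidableEq κ]
    (grp : V → κ) (ω ω' : Edge V → Bool)
    (h : ∀ e : Edge V, grp e.1.1 = grp e.1.2 → ω e = true → ω' e = true) {m : ℕ} (hm : 1 ≤ m)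
    {u : ℝ} (hu : 0 ≤ u) (hav : Avail (fun _ => ()) (fun _ => m) u ω') :
    (chi ω : ℝ) ≤ Fintype.card V / m + Fintype.card κ * u := by
  have key : ∀ s : Finset κ, ∃ k : ℕ, Col ω (univ.filter fun v => grp v ∈ s) k ∧
      (k : ℝ) ≤ (univ.filter fun v => grp v ∈ s).card / m + s.card * u := by
    intro s
    induction s using Finset.induction_on with
    | empty => exact ⟨0, by simpa using col_empty ω, by simp⟩
    | insert B s hB ih =>
      obtain ⟨k, h1, h2⟩ := ih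
      obtain ⟨k', ⟨f, h3, h3'⟩, h4⟩ := greedy_one hm hav (univ.filter fun v => grp v = B)
      have h5 : Col ω (univ.filter fun v => grp v = B) k' := by
        refine ⟨f, h3, fun v hv v' hv' hadj => h3' v hv v' hv' ?_⟩
        have h6 : grp v = grp v' := (mem_filter.1 hv).2.trans (mem_filter.1 hv').2.symm
        rcases lt_or_gt_of_ne hadj.ne with h7 | h7
        · exact (gr_adj ω' h7).2 (h ⟨(v, v'), h7⟩ h6 ((gr_adj ω h7).1 hadj))
        · exact ((gr_adj ω' h7).2 (h ⟨(v', v), h7⟩ h6.symm ((gr_adj ω h7).1 hadj.symm))).symm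
      have h6 : (univ.filter fun v => grp v ∈ insert B s) =
          (univ.filter fun v => grp v = B) ∪ (univ.filter fun v => grp v ∈ s) := by
        ext v; simp
      refine ⟨k' + k, h6 ▸ h5.union h1, ?_⟩
      rw [h6, Finset.card_union_of_disjoint (Finset.disjoint_filter.2
        fun v _ (h7 : grp v = B) (h8 : grp v ∈ s) => hB (h7 ▸ h8)), Finset.card_insert_of_notMem hB]
      rw [max_eq_left hu] at h4
      push_cast
      rw [add_div]
      linarith
  obtain ⟨k, h1, h2⟩ := key univ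
  simp only [Finset.mem_univ, Finset.filter_true, Finset.card_univ] at h1 h2
  exact le_trans (by exact_mod_cast h1.chi_le) h2

lemma count_ev (Γ : ℕ) : ∀ᶠ n : ℕ in atTop, 1 ≤ ⌊Real.log n / 5⌋₊ ∧
    (n : ℝ) / ⌊Real.log n / 5⌋₊ + Γ * (n / Real.log n ^ 2) ≤ 22 * (n / (2 * Real.log n)) := by
  filter_upwards [ev_log 10, ev_log Γ] with n h1 h2
  obtain ⟨l, hl⟩ : ∃ l : ℝ, l = Real.log n := ⟨_, rfl⟩
  rw [← hl] at h1 h2 ⊢
  have h3 : l / 10 ≤ ⌊l / 5⌋₊ := by linarith [Nat.sub_one_lt_floor (l / 5)]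
  refine ⟨Nat.le_floor (by push_cast; linarith), ?_⟩
  have hl0 : 0 < l := by linarith
  calc _ ≤ (n : ℝ) / (l / 10) + l * (n / l ^ 2) := by gcongr
    _ = _ := by field_simp; ring

end Pool.Agent.Lib.EAF80
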