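import Pool.Agent.Lib.MP_eaf82e_pr.UpperFin

/-! The collision graph of random words is dominated by a binomial random graph. -/

set_option autoImplicit false
open Finset Filter Topology

namespace Pool.Agent.Lib.EAF80
open Pool.Agent.Lib.MP_eaf82e_pr

section
variable {ι : Type*} [Fintype ι] [DecidableEq ι]

lemma Ex_sup (p q : ι → ℝ) (f : (ι → Bool) → ℝ) :
    Ex p (fun ω => Ex q (fun ω' => f (ω ⊔ ω'))) = Ex (fun e => 1 - (1 - p e) * (1 - q e)) f := by
  have h1 : ∀ ω ω' : ι → Bool, f (ω ⊔ ω') =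
      ∑ η, f η * ∏ e, (if (ω e || ω' e) = η e then (1 : ℝ) else 0) := by
    intro ω ω'
    rw [Finset.sum_eq_single (ω ⊔ ω')]
    · rw [Finset.prod_eq_one, mul_one]
      intro e _
      exact if_pos rfl
    · intro η _ hη
      obtain ⟨e, he⟩ := Function.ne_iff.1 hη
      rw [Finset.prod_eq_zero (Finset.mem_univ e), mul_zero]
      exact if_neg fun h => he h.symm
    · simp
  have h2 : ∀ (η ω : ι → Bool),
      Ex q (fun ω' => ∏ e, (if (ω e || ω' e) = η e then (1 : ℝ) else 0)) =
      ∏ e, (q e * (if (ω e || true) = η e then (1 : ℝ) else 0) +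
        (1 - q e) * (if (ω e || false) = η e then (1 : ℝ) else 0)) := fun η ω =>
    Ex_prod q (fun e b => if (ω e || b) = η e then (1 : ℝ) else 0)
  simp_rw [h1, Ex_sum, Ex_const_mul, h2]
  unfold Ex
  refine Finset.sum_congr rfl fun η _ => ?_
  have h3 := Ex_prod p (fun e b => q e * (if (b || true) = η e then (1 : ℝ) else 0) +
        (1 - q e) * (if (b || false) = η e then (1 : ℝ) else 0))
  unfold Ex at h3
  rw [h3, mul_comm]
  congr 1
  unfold wt
  refine Finset.prod_congr rfl fun e _ => ?_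
  cases η e
  · simp
  · simp; ring

/-- the configuration with the single edge `e` -/
def sg (e : ι) : ι → Bool := fun e' => decide (e' = e)

lemma Ex_ge_single {q : ι → ℝ} (hq : IsP q) (f : (ι → Bool) → ℝ) (hf : Monotone f) :
    f ⊥ + ∑ e, (f (sg e) - f ⊥) * wt q (sg e) ≤ Ex q f := by
  have h1 : ∀ e, Ex q (fun ω => if ω = sg e then (1 : ℝ) else 0) = wt q (sg e) := by
    intro e; unfold Ex; simp
  simp_rw [← h1, ← Ex_const_mul]
  rw [← Ex_sum, ← Ex_const q (f ⊥), ← Ex_add]
  simp only [Ex_const]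
  refine Ex_mono hq fun ω => ?_
  by_cases h : ∃ e, ω = sg e
  · obtain ⟨e, rfl⟩ := h
    rw [Finset.sum_eq_single e]
    · simp
    · intro e' _ he
      rw [if_neg, mul_zero]
      intro h2
      have := congrFun h2 e
      simp [sg, he.symm] at this
    · simp
  · rw [Finset.sum_eq_zero fun e _ => by rw [if_neg fun h2 => h ⟨e, h2⟩, mul_zero], add_zero]
    exact hf bot_le

lemma le_single (f : (ι → Bool) → ℝ) (hf : Monotone f) (h0 : ∀ ω, 0 ≤ f ω) (h1 : ∀ ω, f ω ≤ 1)
    (ω : ι → Bool) : f ω ≤ f ⊥ + ∑ e, (f (sg e) - f ⊥) * (if ω e = true then 1 else 0) +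
      ∑ e, ∑ e' ∈ univ.erase e, (if ω e = true then (1 : ℝ) else 0) * (if ω e' = true then 1 else 0) := by
  have a1 : ∀ e, 0 ≤ (f (sg e) - f ⊥) * (if ω e = true then 1 else 0) := fun e =>
    mul_nonneg (sub_nonneg.2 (hf bot_le)) (by split_ifs <;> norm_num)
  have a2 : ∀ e e', 0 ≤ (if ω e = true then (1 : ℝ) else 0) * (if ω e' = true then 1 else 0) :=
    fun e e' => mul_nonneg (by split_ifs <;> norm_num) (by split_ifs <;> norm_num)
  have a3 := Finset.sum_nonneg fun e (_ : e ∈ univ) => a1 e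
  have a4 := Finset.sum_nonneg fun e (_ : e ∈ univ) =>
    Finset.sum_nonneg fun e' (_ : e' ∈ univ.erase e) => a2 e e'
  by_cases h : ∃ e, ω e = true
  · obtain ⟨e, he⟩ := h
    by_cases h2 : ∃ e', e' ≠ e ∧ ω e' = true
    · obtain ⟨e', h3, h4⟩ := h2
      have h5 := (Finset.single_le_sum (fun e' _ => a2 e e')
        (Finset.mem_erase.2 ⟨h3, Finset.mem_univ e'⟩)).trans
        (Finset.single_le_sum (f := fun e => ∑ e' ∈ univ.erase e,
          (if ω e = true then (1 : ℝ) else 0) * (if ω e' = true then 1 else 0))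
          (fun e _ => Finset.sum_nonneg fun e' _ => a2 e e') (Finset.mem_univ e))
      rw [if_pos he, if_pos h4] at h5
      linarith [h0 ⊥, h1 ω]
    · have h3 : ω = sg e := by
        ext e'
        by_cases h4 : e' = e
        · simp [sg, h4, he]
        · have : ¬ ω e' = true := fun h5 => h2 ⟨e', h4, h5⟩
          simp [sg, h4, this]
      have h5 := Finset.single_le_sum (fun e _ => a1 e) (Finset.mem_univ e)
      rw [if_pos he, ← h3] at h5
      linarith
  · have : ω = ⊥ := by
      ext e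
      have : ¬ ω e = true := fun h2 => h ⟨e, h2⟩
      simpa using this
    have h3 : f ω = f ⊥ := by rw [this]
    linarith
end

lemma sum_update {V α R : Type*} [Fintype V] [DecidableEq V] [Fintype α] [Semiring R] (j : V)
    (G : (V → α) → R) :
    ∑ x : V → α, ∑ a, G (Function.update x j a) = Fintype.card α * ∑ x, G x := by
  have hI : Function.Involutive
      (fun p : (V → α) × α => (Function.update p.1 j p.2, p.1 j)) := by
    rintro ⟨x, a⟩; simp
  rw [← Fintype.sum_prod_type', ← Equiv.sum_comp hI.toPerm, Fintype.sum_prod_type]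
  simp [Function.Involutive.toPerm, Finset.mul_sum]

lemma sum_coll {V α : Type*} [Fintype V] [DecidableEq V] [Fintype α] [DecidableEq α] {i j : V}
    (hij : i ≠ j) (F : (V → α) → ℝ) (hF : ∀ x a, F (Function.update x j a) = F x) :
    Fintype.card α * ∑ x : V → α, (if x i = x j then 1 else 0) * F x = ∑ x, F x := by
  rw [← sum_update j]
  refine Finset.sum_congr rfl fun x _ => ?_
  simp [hF, Function.update_of_ne hij]

variable {n M : ℕ}

/-- collisions of one letter -/
def col (x : Fin n → Fin M) : Edge (Fin n) → Bool := fun e => decide (x e.1.1 = x e.1.2)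

lemma col_one (e : Edge (Fin n)) :
    (M : ℝ) * ∑ x : Fin n → Fin M, (if col x e = true then (1 : ℝ) else 0) = (M : ℝ) ^ n := by
  have := sum_coll (α := Fin M) e.2.ne (fun _ => 1) (fun _ _ => rfl)
  simpa [col] using this

lemma col_two {e e' : Edge (Fin n)} (h : e' ≠ e) :
    (M : ℝ) ^ 2 * ∑ x : Fin n → Fin M,
      (if col x e = true then (1 : ℝ) else 0) * (if col x e' = true then 1 else 0) = (M : ℝ) ^ n := by
  have key : ∀ (i j : Fin n) (e' : Edge (Fin n)), i ≠ j → e'.1.1 ≠ j → e'.1.2 ≠ j →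
      (M : ℝ) ^ 2 * ∑ x : Fin n → Fin M,
        (if x i = x j then (1 : ℝ) else 0) * (if col x e' = true then 1 else 0) = (M : ℝ) ^ n := by
    intro i j e' h1 h2 h3
    have := sum_coll (α := Fin M) h1 (fun x => if col x e' = true then (1 : ℝ) else 0)
      (fun x a => by simp [col, Function.update_of_ne h2, Function.update_of_ne h3])
    rw [Fintype.card_fin] at this
    rw [sq, mul_assoc, this, col_one]
  obtain ⟨⟨i, j⟩, hij⟩ := e
  obtain ⟨⟨k, l⟩, hkl⟩ := e'
  simp only at hij hkl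
  rcases lt_trichotomy j l with h1 | rfl | h1
  · have := key k l ⟨(i, j), hij⟩ hkl.ne (hij.trans h1).ne h1.ne
    rw [← this]
    congr 1
    exact Finset.sum_congr rfl fun x _ => by rw [mul_comm]; simp [col]
  · have hik : k ≠ i := fun h2 => h (by subst h2; rfl)
    have := key j i ⟨(k, j), hkl⟩ hij.ne' hik hij.ne'
    simpa [col, eq_comm] using this
  · have := key i j ⟨(k, l), hkl⟩ hij.ne (hkl.trans h1).ne h1.ne
    simpa [col] using this

lemma step (hM : 0 < M) {q : Edge (Fin n) → ℝ} (hq : IsP q) (hw : ∀ e, 1 / (M : ℝ) ≤ wt q (sg e))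
    (f : (Edge (Fin n) → Bool) → ℝ) (hf : Monotone f) (h0 : ∀ ω, 0 ≤ f ω) (h1 : ∀ ω, f ω ≤ 1) :
    ∑ x : Fin n → Fin M, f (col x) ≤ (M : ℝ) ^ n * (Ex q f + (n : ℝ) ^ 4 / (M : ℝ) ^ 2) := by
  have hM' : (0 : ℝ) < M := by exact_mod_cast hM
  have hN : (Fintype.card (Edge (Fin n)) : ℝ) ≤ (n : ℝ) ^ 2 := by
    have := Fintype.card_subtype_le (fun p : Fin n × Fin n => p.1 < p.2)
    rw [Fintype.card_prod, Fintype.card_fin, ← sq] at this
    exact_mod_cast this
  refine (Finset.sum_le_sum fun x _ => le_single f hf h0 h1 (col x)).trans ?_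
  rw [Finset.sum_add_distrib, Finset.sum_add_distrib, mul_add]
  refine add_le_add (le_trans ?_ (mul_le_mul_of_nonneg_left (Ex_ge_single hq f hf) (by positivity))) ?_
  · rw [mul_add, Finset.sum_comm, Finset.mul_sum]
    refine add_le_add (by simp) (Finset.sum_le_sum fun e _ => ?_)
    rw [← Finset.mul_sum, mul_left_comm]
    refine mul_le_mul_of_nonneg_left ?_ (sub_nonneg.2 (hf bot_le))
    refine le_trans (le_of_eq ?_) (mul_le_mul_of_nonneg_left (hw e) (by positivity))
    rw [← col_one (M := M) e]; field_simp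
  · rw [Finset.sum_comm]
    calc _ = ∑ e : Edge (Fin n), ∑ _e' ∈ univ.erase e, (M : ℝ) ^ n / (M : ℝ) ^ 2 := by
          refine Finset.sum_congr rfl fun e _ => ?_
          rw [Finset.sum_comm]
          refine Finset.sum_congr rfl fun e' he' => ?_
          rw [← col_two (M := M) (Finset.ne_of_mem_erase he')]; field_simp
      _ ≤ ∑ _e : Edge (Fin n), ∑ _e' : Edge (Fin n), (M : ℝ) ^ n / (M : ℝ) ^ 2 :=
          Finset.sum_le_sum fun e _ => Finset.sum_le_sum_of_subset_of_nonneg
            (Finset.erase_subset _ _) fun _ _ _ => by positivity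
      _ ≤ (n : ℝ) ^ 2 * ((n : ℝ) ^ 2 * ((M : ℝ) ^ n / (M : ℝ) ^ 2)) := by
          simp only [Finset.sum_const, Finset.card_univ, nsmul_eq_mul]
          gcongr
      _ = _ := by ring

/-- pairs of words that agree in some letter -/
def conf {d : ℕ} (u : Fin d → Fin n → Fin M) : Edge (Fin n) → Bool :=
  fun e => decide (∃ a, u a e.1.1 = u a e.1.2)

lemma hybrid (hM : 0 < M) {a : ℝ} (ha : 0 ≤ a)
    (hw : ∀ e : Edge (Fin n), 1 / (M : ℝ) ≤ wt (qq fun _ _ => a) (sg e)) (d : ℕ)
    (f : (Edge (Fin n) → Bool) → ℝ) (hf : Monotone f) (h0 : ∀ ω, 0 ≤ f ω) (h1 : ∀ ω, f ω ≤ 1) :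
    ∑ u : Fin d → Fin n → Fin M, f (conf u) ≤
      ((M : ℝ) ^ n) ^ d * (Ex (qq fun _ _ => d * a) f + d * ((n : ℝ) ^ 4 / (M : ℝ) ^ 2)) := by
  induction d generalizing f with
  | zero =>
    have h2 := Ex_ge_single (q := qq fun _ _ : Fin n => ((0 : ℕ) : ℝ) * a)
      (isP_qq fun _ _ => by simp) f hf
    have h3 : 0 ≤ ∑ e, (f (sg e) - f ⊥) * wt (qq fun _ _ : Fin n => ((0 : ℕ) : ℝ) * a) (sg e) :=
      Finset.sum_nonneg fun e _ => mul_nonneg (sub_nonneg.2 (hf bot_le))
        (wt_nonneg (isP_qq fun _ _ => by simp) _)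
    have h4 : ∀ u : Fin 0 → Fin n → Fin M, conf u = ⊥ := fun u => by ext e; simp [conf]
    simp only [h4, Finset.sum_const, Finset.card_univ, Fintype.card_unique, one_smul, pow_zero,
      one_mul]
    simp only [Nat.cast_zero, zero_mul, add_zero] at h2 h3 ⊢
    linarith
  | succ d ih =>
    have hq : IsP (qq fun _ _ : Fin n => (d : ℝ) * a) := isP_qq fun _ _ => by positivity
    have hc : ∀ (x : Fin n → Fin M) (u : Fin d → Fin n → Fin M),
        conf (Fin.cons x u : Fin (d + 1) → Fin n → Fin M) = col x ⊔ conf u := by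
      intro x u; ext e; simp [conf, col, Fin.exists_fin_succ]
    rw [← Equiv.sum_comp (Fin.consEquiv fun _ => Fin n → Fin M), Fintype.sum_prod_type]
    simp only [Fin.consEquiv, Equiv.coe_fn_mk, hc]
    refine (Finset.sum_le_sum fun x _ => ih (fun ω => f (col x ⊔ ω))
      (fun _ _ h => hf (sup_le_sup_left h _)) (fun _ => h0 _) (fun _ => h1 _)).trans ?_
    rw [← Finset.mul_sum, Finset.sum_add_distrib, pow_succ _ d, mul_assoc]
    refine mul_le_mul_of_nonneg_left ?_ (by positivity)
    have h2 := step hM (isP_qq fun _ _ => ha) hw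
      (fun η => Ex (qq fun _ _ : Fin n => (d : ℝ) * a) fun ω => f (η ⊔ ω))
      (fun _ _ h => Ex_mono hq fun ω => hf (sup_le_sup_right h _))
      (fun _ => Ex_nonneg hq fun _ => h0 _)
      (fun _ => (Ex_mono hq fun _ => h1 _).trans (Ex_const _ _).le)
    rw [Ex_sup] at h2
    have h3 : (fun e : Edge (Fin n) => 1 - (1 - qq (fun _ _ => a) e) *
        (1 - qq (fun _ _ => (d : ℝ) * a) e)) = qq fun _ _ => ((d + 1 : ℕ) : ℝ) * a := by
      ext e
      simp only [qq, sub_sub_cancel, ← Real.exp_add]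
      push_cast
      congr 2; ring
    rw [h3] at h2
    simp only [Finset.sum_const, Finset.card_univ, nsmul_eq_mul, Fintype.card_fun, Fintype.card_fin]
    push_cast at h2 ⊢
    nlinarith

end Pool.Agent.Lib.EAF80
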