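import Pool.Agent.Lib.EAF80.Psd
import Pool.Agent.Lib.EAF80.Dom

/-! Independent uniform digits on the unit interval; moments and energy of the kernel. -/

set_option autoImplicit false
open MeasureTheory ProbabilityTheory Filter Topology Function unitInterval
open scoped ENNReal NNReal

namespace Pool.Agent.Lib.EAF80

lemma unif_single {α : Type*} [Fintype α] [MeasurableSpace α] [MeasurableSingletonClass α]
    (a : α) : uniformOn (Set.univ : Set α) {a} = (Fintype.card α : ℝ≥0∞)⁻¹ := by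
  rw [uniformOn_univ]; simp

variable {M G : ℕ → ℕ}

/-- the law of the digits, as far as it is used -/
structure Dig (u : ∀ t, I → Fin (M t) → Fin (M t)) (g : ∀ t, I → Fin (G t)) : Prop where
  mu : ∀ t, Measurable (u t)
  mg : ∀ t, Measurable (g t)
  one : ∀ t (F : (Fin (M t) → Fin (M t)) → ℝ≥0∞),
    ∫⁻ y, F (u t y) = (∑ v, F v) * ((M t : ℝ≥0∞) ^ M t)⁻¹
  two : ∀ t s (F : (Fin (M t) → Fin (M t)) → ℝ≥0∞) (b : Fin (G s)),
    ∫⁻ y, F (u t y) * eqi b (g s y) = (∫⁻ y, F (u t y)) * (G s : ℝ≥0∞)⁻¹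

theorem exists_dig (hM : ∀ t, 0 < M t) (hG : ∀ t, 0 < G t) :
    ∃ (u : ∀ t, I → Fin (M t) → Fin (M t)) (g : ∀ t, I → Fin (G t)), Dig u g := by
  have : ∀ t, Nonempty (Fin (M t)) := fun t => ⟨⟨0, hM t⟩⟩
  have : ∀ t, Nonempty (Fin (G t)) := fun t => ⟨⟨0, hG t⟩⟩
  let μ := Measure.infinitePi fun t => uniformOn (Set.univ : Set (Fin (M t) → Fin (M t)))
  let ν := Measure.infinitePi fun t => uniformOn (Set.univ : Set (Fin (G t)))
  obtain ⟨z, hz, hz'⟩ := (μ.prod ν).exists_measurable_map_eq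
  have hp : MeasurePreserving z volume (μ.prod ν) := ⟨hz, hz'⟩
  have h1 : ∀ t (F : (Fin (M t) → Fin (M t)) → ℝ≥0∞),
      ∫⁻ y, F (y t) ∂μ = (∑ v, F v) * ((M t : ℝ≥0∞) ^ M t)⁻¹ := by
    intro t F
    rw [(measurePreserving_eval_infinitePi _ t).lintegral_comp (measurable_of_countable F),
      lintegral_fintype, Finset.sum_mul]
    simp [unif_single]
  have h2 : ∀ t (F : (Fin (M t) → Fin (M t)) → ℝ≥0∞),
      ∫⁻ y, F ((z y).1 t) = (∑ v, F v) * ((M t : ℝ≥0∞) ^ M t)⁻¹ := by
    intro t F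
    rw [← h1]
    exact (measurePreserving_fst.comp hp).lintegral_comp (f := fun y => F (y t))
      ((measurable_of_countable F).comp (measurable_pi_apply t))
  refine ⟨fun t y => (z y).1 t, fun t y => (z y).2 t, fun t => by fun_prop, fun t => by fun_prop,
    h2, fun t s F b => ?_⟩
  have m1 : Measurable fun y : ∀ t, Fin (M t) → Fin (M t) => F (y t) :=
    (measurable_of_countable F).comp (measurable_pi_apply t)
  have m2 : Measurable fun y : ∀ t, Fin (G t) => eqi b (y s) :=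
    (measurable_of_countable (eqi b)).comp (measurable_pi_apply s)
  rw [hp.lintegral_comp (f := fun p => F (p.1 t) * eqi b (p.2 s))
    ((m1.comp measurable_fst).mul (m2.comp measurable_snd)),
    lintegral_prod_mul m1.aemeasurable m2.aemeasurable, h1, h2,
    lint_eqi ν (measurable_pi_apply s), (measurePreserving_eval_infinitePi _ s).measure_preimage
      (measurableSet_singleton b).nullMeasurableSet, unif_single, Fintype.card_fin]

lemma avg_exp {N : ℕ} (hN : 0 < N) (w : Fin N → Fin N) (θ : ℝ) :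
    (∑ v : Fin N → Fin N, ENNReal.ofReal (Real.exp (θ * (∑ a, eqi (w a) (v a)).toReal))) *
      ((N : ℝ≥0∞) ^ N)⁻¹ ≤ ENNReal.ofReal (Real.exp (Real.exp θ)) := by
  have hN' : (0 : ℝ) < N := by exact_mod_cast hN
  have h1 : ∀ v : Fin N → Fin N, Real.exp (θ * (∑ a, eqi (w a) (v a)).toReal) =
      ∏ a, Real.exp (θ * (eqi (w a) (v a)).toReal) := by
    intro v
    rw [ENNReal.toReal_sum fun a _ => ne_top_of_le_ne_top ENNReal.one_ne_top (eqi_le _ _),
      Finset.mul_sum, Real.exp_sum]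
  have h2 : ∀ a, ∑ b : Fin N, Real.exp (θ * (eqi (w a) b).toReal) ≤
      N * Real.exp (Real.exp θ / N) := by
    intro a
    calc _ ≤ ∑ b : Fin N, (1 + if w a = b then Real.exp θ else 0) := by
          refine Finset.sum_le_sum fun b _ => ?_
          by_cases h : w a = b <;> simp [eqi, h]
      _ = N * (Real.exp θ / N + 1) := by
          rw [Finset.sum_add_distrib]; simp; field_simp; ring
      _ ≤ _ := by gcongr; exact Real.add_one_le_exp _
  rw [← ENNReal.ofReal_sum_of_nonneg fun _ _ => (Real.exp_pos _).le, ← div_eq_mul_inv,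
    ENNReal.div_le_iff (by simp [hN.ne']) (by simp),
    ← ENNReal.ofReal_natCast, ← ENNReal.ofReal_pow hN'.le,
    ← ENNReal.ofReal_mul (Real.exp_pos _).le]
  refine ENNReal.ofReal_le_ofReal ?_
  simp_rw [h1]
  rw [← Fintype.piFinset_univ, ← Finset.prod_univ_sum (fun _ => Finset.univ)
    fun a b => Real.exp (θ * (eqi (w a) b).toReal)]
  refine (Finset.prod_le_prod (fun a _ => Finset.sum_nonneg fun _ _ => (Real.exp_pos _).le)
    fun a _ => h2 a).trans (le_of_eq ?_)
  rw [Finset.prod_const, Finset.card_univ, Fintype.card_fin, mul_pow, ← Real.exp_nat_mul, mul_comm]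
  congr 2; field_simp

/-- `M 0 * ... * M (t - 1)` -/
def DD (M : ℕ → ℕ) (t : ℕ) : ℕ := ∏ s ∈ Finset.range t, M s

lemma pow_le_DD (hM : ∀ t, 2 ≤ M t) (t : ℕ) : 2 ^ t ≤ DD M t := by
  simpa [DD] using Finset.pow_card_le_prod (Finset.range t) M 2 fun s _ => hM s

variable {u : ∀ t, I → Fin (M t) → Fin (M t)} {g : ∀ t, I → Fin (G t)} (h : Dig u g)
  (hM : ∀ t, 2 ≤ M t)
  (hG : ∀ t, (DD M (t + 1) : ℝ) ^ 2 * Real.exp (Real.exp ((DD M (t + 1) : ℝ) ^ 2)) ≤ G t)
include h hM hG

omit h hM hG in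
lemma HH_ne_top (x y : I) : HH u g x y ≠ ∞ := by
  obtain ⟨t, -, h1⟩ := HH_le u g x y
  exact ne_top_of_le_ne_top (ENNReal.mul_ne_top (ENNReal.natCast_ne_top _) (by simp))
    (h1.trans (mul_le_mul' le_rfl (kk_le u t x y)))

theorem Dig.moment {θ : ℝ} (hθ : 0 ≤ θ) : ∃ C : ℝ≥0, ∀ x,
    ∫⁻ y, ENNReal.ofReal (Real.exp (θ * (HH u g x y).toReal)) ≤ C := by
  have hD : ∀ t, (2 : ℝ) ^ t ≤ DD M t := fun t => by exact_mod_cast pow_le_DD hM t
  have hD0 : ∀ t, (0 : ℝ) < DD M t := fun t => lt_of_lt_of_le (by positivity) (hD t)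
  have hG0 : ∀ t, (0 : ℝ) < G t := fun t => lt_of_lt_of_le (by have := hD0 (t + 1); positivity) (hG t)
  let a : ℕ → ℝ := fun t => Real.exp (Real.exp (θ * DD M (t + 1))) / G t
  have ha0 : ∀ t, 0 ≤ a t := fun t => div_nonneg (Real.exp_pos _).le (hG0 t).le
  have hs : Summable a := by
    refine Summable.of_norm_bounded_eventually_nat summable_geometric_two ?_
    filter_upwards [tendsto_natCast_atTop_atTop.eventually_ge_atTop θ] with t ht
    have h1 : (2 : ℝ) ^ t ≤ DD M (t + 1) :=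
      le_trans (pow_le_pow_right₀ one_le_two t.le_succ) (hD _)
    have h2 : (t : ℝ) ≤ 2 ^ t := by exact_mod_cast t.lt_two_pow_self.le
    have h3 : (1 : ℝ) ≤ 2 ^ t := one_le_pow₀ one_le_two
    rw [Real.norm_of_nonneg (ha0 t), div_le_iff₀ (hG0 t)]
    refine le_trans ?_ (mul_le_mul_of_nonneg_left (hG t) (by positivity))
    rw [← mul_assoc]
    refine le_trans (Real.exp_le_exp.2 (Real.exp_le_exp.2 ?_))
      (le_mul_of_one_le_left (Real.exp_pos _).le ?_)
    · rw [sq]; exact mul_le_mul_of_nonneg_right (by linarith) (hD0 _).le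
    · rw [one_div, inv_pow, le_inv_mul_iff₀ (by positivity)]; nlinarith
  let F : ∀ t, I → (Fin (M t) → Fin (M t)) → ℝ≥0∞ := fun t x v =>
    ENNReal.ofReal (Real.exp (θ * DD M t * (∑ a, eqi (u t x a) (v a)).toReal))
  have hF : ∀ t x, ∫⁻ y, F t x (u t y) ≤ ENNReal.ofReal (Real.exp (Real.exp (θ * DD M t))) :=
    fun t x => (h.one t _).le.trans (avg_exp (by linarith [hM t]) _ _)
  have mF : ∀ t x, Measurable fun y => F t x (u t y) := fun t x =>
    (measurable_of_countable (F t x)).comp (h.mu t)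
  refine ⟨(Real.exp (Real.exp (θ * DD M 0))).toNNReal + (∑' t, a t).toNNReal, fun x => ?_⟩
  have key : ∀ y, ENNReal.ofReal (Real.exp (θ * (HH u g x y).toReal)) ≤
      F 0 x (u 0 y) + ∑' t, F (t + 1) x (u (t + 1) y) * eqi (g t x) (g t y) := by
    intro y
    obtain ⟨t, h1, h2⟩ := HH_le u g x y
    have h3 : ENNReal.ofReal (Real.exp (θ * (HH u g x y).toReal)) ≤ F t x (u t y) := by
      refine ENNReal.ofReal_le_ofReal (Real.exp_le_exp.2 ?_)
      rw [mul_assoc]
      refine mul_le_mul_of_nonneg_left ?_ hθ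
      have := ENNReal.toReal_mono (ENNReal.mul_ne_top (ENNReal.natCast_ne_top _)
        (ne_top_of_le_ne_top (by simp) (kk_le u t x y))) h2
      rwa [ENNReal.toReal_mul, ENNReal.toReal_natCast] at this
    rcases t with _ | t
    · exact h3.trans le_self_add
    · refine le_trans (h3.trans ?_) le_add_self
      refine le_trans ?_ (ENNReal.le_tsum t)
      rw [eqi_pos (h1 t t.lt_succ_self), mul_one]
  refine (lintegral_mono key).trans ?_
  rw [lintegral_add_left (mF 0 x), lintegral_tsum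
    (f := fun t y => F (t + 1) x (u (t + 1) y) * eqi (g t x) (g t y)) fun t => ((mF _ x).mul
    ((measurable_of_countable (eqi (g t x))).comp (h.mg t))).aemeasurable, ENNReal.coe_add]
  refine add_le_add (hF 0 x) ?_
  refine le_trans (ENNReal.tsum_le_tsum fun t => ?_) (ENNReal.ofReal_tsum_of_nonneg ha0 hs).ge
  rw [h.two, ENNReal.ofReal_div_of_pos (hG0 t), ENNReal.ofReal_natCast, div_eq_mul_inv]
  exact mul_le_mul' (hF _ x) le_rfl

omit h in
lemma G_ge (T : ℕ) : 2 ^ T * M 0 * DD M (T + 1) ≤ G T := by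
  have h1 : 2 ^ T * M 0 ≤ DD M (T + 1) := by
    rw [DD, Finset.prod_range_succ']
    exact Nat.mul_le_mul_right _ (pow_le_DD (M := fun s => M (s + 1)) (fun s => hM _) T)
  have h4 := Real.one_le_exp (Real.exp_pos ((DD M (T + 1) : ℝ) ^ 2)).le
  have h5 : DD M (T + 1) ^ 2 ≤ G T := by
    exact_mod_cast (le_mul_of_one_le_right (sq_nonneg _) h4).trans (hG T)
  exact le_trans (by rw [sq]; exact Nat.mul_le_mul_right _ h1) h5

omit hM hG in
lemma Dig.cell (T : ℕ) (b : Fin (G T)) : volume (g T ⁻¹' {b}) = (G T : ℝ≥0∞)⁻¹ := by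
  simpa [lint_eqi volume (h.mg T)] using h.two 0 T (fun _ => 1) b

omit hG in
lemma Dig.lint_kk (t : ℕ) (x : I) : ∫⁻ y, kk u t x y = 1 := by
  have h0 : (M t : ℝ≥0∞) ≠ 0 := by simpa using (by linarith [hM t] : 0 < M t).ne'
  have h1 : ∀ a, (M t : ℝ≥0∞) * ∑ v : Fin (M t) → Fin (M t), eqi (u t x a) (v a) =
      (M t : ℝ≥0∞) ^ M t := fun a => by
    have := sum_update a fun v : Fin (M t) → Fin (M t) => eqi (u t x a) (v a)
    rw [Fintype.card_fin] at this
    rw [← this]
    simp only [Function.update_self]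
    rw [Finset.sum_eq_single (u t x a) (fun _ _ h2 => eqi_neg h2.symm) (by simp), eqi_pos rfl]
    simp
  refine (h.one t fun v => ∑ a, eqi (u t x a) (v a)).trans ?_
  have h2 : ∑ v : Fin (M t) → Fin (M t), ∑ a, eqi (u t x a) (v a) = (M t : ℝ≥0∞) ^ M t := by
    rw [← ENNReal.mul_right_inj h0 (by simp), Finset.sum_comm, Finset.mul_sum]
    simp [h1]
  rw [h2, ENNReal.mul_inv_cancel (pow_ne_zero _ h0) (by simp)]

theorem Dig.degree (x : I) : ∫⁻ y, HH u g x y ≤ 1 + 2 * (M 0 : ℝ≥0∞)⁻¹ := by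
  have mk : ∀ t, Measurable fun y => kk u t x y := fun t =>
    (measurable_of_countable fun v : Fin (M t) → Fin (M t) => ∑ a, eqi (u t x a) (v a)).comp (h.mu t)
  have key : ∀ y, HH u g x y ≤ kk u 0 x y +
      ∑' t, (DD M (t + 1) : ℝ≥0∞) * (kk u (t + 1) x y * eqi (g t x) (g t y)) := by
    intro y
    obtain ⟨t, h1, h2⟩ := HH_le u g x y
    rcases t with _ | t
    · exact le_trans (by simpa using h2) le_self_add
    · refine le_trans (h2.trans ?_) le_add_self
      refine le_trans ?_ (ENNReal.le_tsum t)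
      rw [eqi_pos (h1 t t.lt_succ_self), mul_one, DD]
  refine (lintegral_mono key).trans ?_
  rw [lintegral_add_left (mk 0), h.lint_kk hM, lintegral_tsum
    (f := fun t y => (DD M (t + 1) : ℝ≥0∞) * (kk u (t + 1) x y * eqi (g t x) (g t y))) fun t =>
    (((mk _).mul ((measurable_of_countable (eqi (g t x))).comp (h.mg t))).const_mul _).aemeasurable,
    ← ENNReal.tsum_geometric_two, ← ENNReal.tsum_mul_right]
  refine add_le_add le_rfl (ENNReal.tsum_le_tsum fun t => ?_)
  rw [lintegral_const_mul' _ _ (by simp)]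
  have h1 := h.two (t + 1) t (fun v => ∑ a, eqi (u (t + 1) x a) (v a)) (g t x)
  have h2 := h.lint_kk hM (t + 1) x
  unfold kk at h2 ⊢
  rw [h1, h2, one_mul, ← ENNReal.inv_pow, ← ENNReal.mul_inv (Or.inl (by simp)) (Or.inl (by simp)),
    ← div_eq_mul_inv, ENNReal.le_inv_iff_mul_le, ← ENNReal.mul_div_right_comm]
  refine ENNReal.div_le_of_le_mul ?_
  rw [one_mul, mul_comm]
  exact_mod_cast G_ge hM hG t

theorem Dig.energy (ν : Measure I) [IsProbabilityMeasure ν] {C : ℝ≥0∞} (hC : C ≠ ∞)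
    (hν : ν ≤ C • volume) : 1 ≤ En ν (HH u g) := by
  have hu : ∀ t a, Measurable fun x => u t x a := fun t a => (measurable_pi_apply a).comp (h.mu t)
  have h1 : ∀ T, En ν (FF u g (T + 1)) ≤ C * 2⁻¹ ^ T := by
    intro T
    have h2 : 2 ^ T * DD M (T + 1) ≤ G T :=
      le_trans (Nat.mul_le_mul_right _ (Nat.le_mul_of_pos_right _ (by linarith [hM 0])))
        (G_ge hM hG T)
    have h3 := h.cell T
    calc _ ≤ ∫⁻ _x, (DD M (T + 1) : ℝ≥0∞) * (C * (G T : ℝ≥0∞)⁻¹) ∂ν := by
          refine lintegral_mono fun x => ?_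
          calc _ ≤ ∫⁻ y, (DD M (T + 1) : ℝ≥0∞) * eqi (g T x) (g T y) ∂ν := by
                refine lintegral_mono fun y => mul_le_mul' ?_ le_rfl
                rw [DD, Finset.prod_range_succ, Nat.cast_mul]
                exact mul_le_mul' (FF_le u g T x y) (kk_le u T x y)
            _ ≤ _ := by
                rw [lintegral_const_mul' _ _ (by simp), lint_eqi ν (h.mg T), ← h3 (g T x)]
                exact mul_le_mul' le_rfl (hν _)
      _ ≤ _ := by
          rw [lintegral_const, measure_univ, mul_one, mul_left_comm, ← ENNReal.inv_pow]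
          refine mul_le_mul' le_rfl ?_
          rw [← div_eq_mul_inv, ENNReal.le_inv_iff_mul_le, ← ENNReal.mul_div_right_comm]
          refine ENNReal.div_le_of_le_mul ?_
          rw [one_mul, mul_comm]
          exact_mod_cast h2
  have h2 : Tendsto (fun T : ℕ => En ν (HH u g) + C * 2⁻¹ ^ T) atTop
      (𝓝 (En ν (HH u g) + C * 0)) :=
    (ENNReal.Tendsto.const_mul (ENNReal.tendsto_pow_atTop_nhds_zero_of_lt_one (by simp))
      (Or.inr hC)).const_add _
  rw [mul_zero, add_zero] at h2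
  exact ge_of_tendsto' h2 fun T => (EAF80.energy hu h.mg (fun t => by linarith [hM t]) ν
    (T + 1)).trans (add_le_add le_rfl (h1 T))

end Pool.Agent.Lib.EAF80
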