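import Pool.Agent.Lib.EAF80.Low

/-! Scales at which independent sets are small. -/

set_option autoImplicit false
open MeasureTheory Filter Topology Function unitInterval
open scoped ENNReal NNReal

namespace Pool.Agent.Lib.EAF80
open Pool.Agent.Lib.MP_eaf82e_pr

lemma thr_le {n : ℕ} (r : Fin n → Fin n → ℝ≥0) (E : (Edge (Fin n) → Bool) → Prop) :
    volume {U | E (thr (fun i j => pw (r i j)) U)} ≤
      ENNReal.ofReal (Pr (qq fun i j => 1 + r i j) E) := by
  classical
  have hq := isP_qq (V := Fin n) (w := fun i j => 1 + r i j) fun _ _ => by positivity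
  calc _ ≤ volume (⋃ η ∈ Finset.univ.filter E, thr (fun i j => pw (r i j)) ⁻¹' {η}) :=
        measure_mono fun U hU => Set.mem_iUnion₂.2
          ⟨_, Finset.mem_filter.2 ⟨Finset.mem_univ _, hU⟩, rfl⟩
    _ ≤ ∑ η ∈ Finset.univ.filter E, ENNReal.ofReal (wt (qq fun i j => 1 + r i j) η) :=
        (measure_biUnion_finset_le _ _).trans (Finset.sum_le_sum fun η _ => thr_fibre r η)
    _ = _ := by
        rw [← ENNReal.ofReal_sum_of_nonneg fun η _ => wt_nonneg hq η, Finset.sum_filter]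
        congr 1
        refine Finset.sum_congr rfl fun ω _ => ?_
        simp only []
        by_cases h2 : E ω
        · rw [if_pos h2, one_pos' h2, mul_one]
        · rw [if_neg h2, one_neg' h2, mul_zero]

lemma heavy_vol {r : I → I → ℝ≥0} (hr : Measurable (uncurry r)) (n : ℕ) (θ : ℝ) :
    volume {ω : (Fin n → I) × (Fin n × Fin n → I) | ∃ S,
      Indep (thr (fun i j => pw (r (ω.1 i) (ω.1 j))) ω.2) S ∧
        θ * S.card < ws (fun i j => 1 + r (ω.1 i) (ω.1 j)) S} ≤
      ENNReal.ofReal ((1 + Real.exp (-θ)) ^ n - 1) := by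
  have m1 : ∀ i j, Measurable fun ω : (Fin n → I) × (Fin n × Fin n → I) => r (ω.1 i) (ω.1 j) :=
    fun i j => hr.comp (g := uncurry r) (f := fun ω : (Fin n → I) × (Fin n × Fin n → I) =>
      (ω.1 i, ω.1 j)) (by fun_prop)
  have m2 : Measurable fun ω : (Fin n → I) × (Fin n × Fin n → I) =>
      thr (fun i j => pw (r (ω.1 i) (ω.1 j))) ω.2 := by
    refine measurable_pi_lambda _ fun e => measurable_to_bool ?_
    simpa [thr, Set.preimage] using
      measurableSet_lt (f := fun ω : (Fin n → I) × (Fin n × Fin n → I) => ω.2 e.1) (by fun_prop)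
        (meas_pw.comp (m1 e.1.1 e.1.2))
  rw [Measure.volume_eq_prod, Measure.prod_apply]
  · refine le_trans (lintegral_mono (g := fun _ => ENNReal.ofReal ((1 + Real.exp (-θ)) ^ n - 1))
      fun X => ?_) (by simp)
    have h1 := heavy_le (fun i j => 1 + (r (X i) (X j) : ℝ)) (fun _ _ => by positivity) θ
    rw [Fintype.card_fin] at h1
    exact (thr_le (fun i j => r (X i) (X j)) fun η => ∃ S, Indep η S ∧
      θ * S.card < ws (fun i j => 1 + r (X i) (X j)) S).trans (ENNReal.ofReal_le_ofReal h1)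
  · refine measurableSet_setOfPred.2 (Measurable.exists fun S => Measurable.and
      ((measurable_of_countable fun η => Indep η S).comp m2) (measurableSet_setOfPred.1 ?_))
    exact measurableSet_lt measurable_const (Finset.measurable_sum _ fun e _ =>
      (m1 e.1.1 e.1.2).coe_nnreal_real.const_add 1)

lemma chi_ge {n : ℕ} (ω : Edge (Fin n) → Bool) {B : ℝ} (h : ∀ S, Indep ω S → (S.card : ℝ) ≤ B) :
    n / B ≤ chi ω := by
  obtain ⟨C, h1, -, h2, h3⟩ := exists_opt ω
  refine le_trans (le_of_eq_of_le (by simp [div_eq_mul_inv]) (Finset.sum_le_sum (f := fun _ => 1 / B)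
    fun j _ => one_div_le_one_div_of_le ?_ (h _ (h2 j)))) h3
  exact_mod_cast Finset.card_pos.2 ⟨j, h1 j⟩

variable {M G : ℕ → ℕ} {u : ∀ t, I → Fin (M t) → Fin (M t)} {g : ∀ t, I → Fin (G t)}

lemma Dig.coll (h : Dig u g) (t n : ℕ) :
    volume {X : Fin n → I | ¬ Injective fun i => g t (X i)} ≤ (n : ℝ≥0∞) ^ 2 * (G t : ℝ≥0∞)⁻¹ := by
  classical
  calc _ ≤ volume (⋃ p ∈ (Finset.univ : Finset (Fin n)).offDiag ×ˢ (Finset.univ : Finset (Fin (G t))),
          (({p.1.1, p.1.2} : Finset (Fin n)) : Set (Fin n)).pi fun _ => g t ⁻¹' {p.2}) := by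
        refine measure_mono fun X hX => ?_
        obtain ⟨i, j, h1, h2⟩ := Function.not_injective_iff.1 hX
        exact Set.mem_iUnion₂.2 ⟨((i, j), g t (X j)), by simpa using h2, by simp [h1]⟩
    _ ≤ ∑ _p ∈ (Finset.univ : Finset (Fin n)).offDiag ×ˢ (Finset.univ : Finset (Fin (G t))),
          (G t : ℝ≥0∞)⁻¹ * (G t : ℝ≥0∞)⁻¹ := by
        refine (measure_biUnion_finset_le _ _).trans (Finset.sum_le_sum fun p hp => ?_)
        rw [volume_pi, Measure.pi_pi_finset,
          Finset.prod_pair (Finset.mem_offDiag.1 (Finset.mem_product.1 hp).1).2.2, h.cell]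
    _ ≤ _ := by
        rw [Finset.sum_const, Finset.card_product, Finset.offDiag_card, nsmul_eq_mul]
        simp only [Finset.card_univ, Fintype.card_fin]
        rw [Nat.cast_mul, mul_assoc, ← mul_assoc (G t : ℝ≥0∞)]
        refine mul_le_mul' ?_ (mul_le_of_le_one_left' (ENNReal.mul_inv_le_one _))
        rw [sq]; exact_mod_cast Nat.sub_le _ _

lemma Dig.spread (h : Dig u g) (hM : ∀ t, 2 ≤ M t) (t : ℕ) {n : ℕ} {X : Fin n → I}
    (hX : Injective fun i => g t (X i)) (S : Finset (Fin n)) :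
    (S.card : ℝ) ^ 2 ≤ ∑ i ∈ S, ∑ j ∈ S.erase i, (HH u g (X i) (X j)).toReal +
      S.card * DD M (t + 1) := by
  rcases S.eq_empty_or_nonempty with rfl | hS
  · simp
  have h0 : (S.card : ℝ≥0∞) ≠ 0 := by simpa using hS.ne_empty
  let ν : Measure I := (S.card : ℝ≥0∞)⁻¹ • ∑ i ∈ S, Measure.dirac (X i)
  have h1 : ∀ f : I → ℝ≥0∞, S.card * ∫⁻ x, f x ∂ν = ∑ i ∈ S, f (X i) := fun f => by
    simp only [ν, lintegral_smul_measure, lintegral_finsetSum_measure, lintegral_dirac, smul_eq_mul]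
    rw [← mul_assoc, ENNReal.mul_inv_cancel h0 (by simp), one_mul]
  have : IsProbabilityMeasure ν := ⟨by
    rw [← ENNReal.mul_right_inj h0 (by simp), ← lintegral_one, h1]; simp⟩
  have h2 : ∀ R : I → I → ℝ≥0∞, (S.card : ℝ≥0∞) ^ 2 * En ν R = ∑ i ∈ S, ∑ j ∈ S, R (X i) (X j) :=
    fun R => by rw [sq, mul_assoc, En, h1, Finset.mul_sum]; simp only [h1]
  have h3 := mul_le_mul' (le_refl ((S.card : ℝ≥0∞) ^ 2)) (EAF80.energy (u := u)
    (fun t a => (measurable_pi_apply a).comp (h.mu t)) h.mg (fun t => by linarith [hM t]) ν (t + 1))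
  rw [mul_one, mul_add, h2, h2] at h3
  have h4 : ∀ i ∈ S, ∑ j ∈ S, HH u g (X i) (X j) = ∑ j ∈ S.erase i, HH u g (X i) (X j) := by
    intro i hi
    have h5 : HH u g (X i) (X i) = 0 := ENNReal.tsum_eq_zero.2 fun s => if_pos rfl
    rw [← Finset.add_sum_erase _ _ hi, h5, zero_add]
  have h5 : ∀ i ∈ S, ∑ j ∈ S, FF u g (t + 1) (X i) (X j) ≤ DD M (t + 1) := by
    intro i hi
    rw [Finset.sum_eq_single i (fun j _ hj => ?_) fun h6 => absurd hi h6]
    · exact FF_le u g _ _ _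
    · rw [FF]; simp only [eqi_neg fun h6 => hj (hX h6).symm, mul_zero]
  have h6 := h3.trans (add_le_add (Finset.sum_congr rfl h4).le (Finset.sum_le_sum h5))
  have h7 : ∀ i, ∑ j ∈ S.erase i, HH u g (X i) (X j) ≠ ∞ := fun i =>
    ENNReal.sum_ne_top.2 fun j _ => HH_ne_top _ _
  have h8 : ∑ i ∈ S, ∑ j ∈ S.erase i, HH u g (X i) (X j) ≠ ∞ := ENNReal.sum_ne_top.2 fun i _ => h7 i
  have h9 := ENNReal.toReal_mono (ENNReal.add_ne_top.2 ⟨h8, by simp [ENNReal.mul_eq_top]⟩) h6
  rw [ENNReal.toReal_add h8 (by simp [ENNReal.mul_eq_top]), ENNReal.toReal_sum fun i _ => h7 i,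
    Finset.sum_congr rfl fun i _ => ENNReal.toReal_sum fun j _ => HH_ne_top _ _] at h9
  simpa using h9

lemma Dig.high (h : Dig u g) (hM : ∀ t, 2 ≤ M t) {γ : ℝ≥0} (hγ : 0 < γ) (t n : ℕ) (θ : ℝ)
    (hθ : 0 ≤ θ) : volume {ω : (Fin n → I) × (Fin n × Fin n → I) |
      (chi (thr (fun i j => WW u g γ (ω.1 i) (ω.1 j)) ω.2) : ℝ) < n / (2 * θ / γ + DD M (t + 1))} ≤
      (n : ℝ≥0∞) ^ 2 * (G t : ℝ≥0∞)⁻¹ + ENNReal.ofReal ((1 + Real.exp (-θ)) ^ n - 1) := by
  have hH := meas_HH (u := u) (fun t a => (measurable_pi_apply a).comp (h.mu t)) h.mg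
  have hγ' : (0 : ℝ) < γ := hγ
  refine le_trans (measure_mono ?_) ((measure_union_le
    ({X : Fin n → I | ¬ Injective fun i => g t (X i)} ×ˢ Set.univ) _).trans (add_le_add
    (le_trans (le_of_eq ?_) (h.coll t n)) (heavy_vol (r := fun x y => γ * (HH u g x y).toNNReal)
      (hH.ennreal_toNNReal.const_mul γ) n θ)))
  · intro ω hω
    by_contra h1
    simp only [Set.mem_union, Set.mem_prod, Set.mem_univ, and_true, Set.mem_ofPred_eq, not_or,
      not_not, not_exists, not_and, not_lt] at h1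
    refine absurd hω (not_lt.2 (chi_ge _ fun S hS => ?_))
    have h2 := h1.2 S hS
    have h3 := h.spread hM t h1.1 S
    have h4 := two_ws (w := fun i j => 1 + ((γ * (HH u g (ω.1 i) (ω.1 j)).toNNReal : ℝ≥0) : ℝ))
      (fun i j => by rw [HH_comm]) S
    have h5 : γ * ∑ i ∈ S, ∑ j ∈ S.erase i, (HH u g (ω.1 i) (ω.1 j)).toReal ≤ 2 * (θ * S.card) := by
      refine le_trans ?_ (h4.ge.trans (mul_le_mul_of_nonneg_left h2 zero_le_two))
      simp only [Finset.mul_sum]
      exact Finset.sum_le_sum fun i _ => Finset.sum_le_sum fun j _ =>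
        le_add_of_nonneg_left zero_le_one
    rcases Nat.eq_zero_or_pos S.card with h6 | h6
    · rw [h6, Nat.cast_zero]; positivity
    · have h7 : (0 : ℝ) < S.card := by exact_mod_cast h6
      rw [← sub_le_iff_le_add, le_div_iff₀ hγ']
      refine le_of_mul_le_mul_right ?_ h7
      nlinarith [mul_le_mul_of_nonneg_left h3 hγ'.le]
  · rw [Measure.volume_eq_prod, Measure.prod_prod, measure_univ, mul_one]

end Pool.Agent.Lib.EAF80
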