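import Pool.Agent.Lib.EAF80.Digits
import Pool.Agent.Lib.EAF80.Cheap
import Pool.Agent.Lib.MP_eaf82e_pr.Final

/-! The graphon and its cheap colourings. -/

set_option autoImplicit false
open MeasureTheory Filter Topology Function unitInterval
open scoped ENNReal NNReal

namespace Pool.Agent.Lib.EAF80
open Pool.Agent.Lib.MP_eaf82e_pr

/-- edge probability for the weight `1 + r` -/
noncomputable def pw (r : ℝ≥0) : I := ⟨1 - Real.exp (-(1 + r)), by
  have h1 := Real.exp_pos (-(1 + (r : ℝ)))
  have h2 : Real.exp (-(1 + (r : ℝ))) ≤ 1 := Real.exp_le_one_iff.2 (by linarith [r.2])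
  constructor <;> linarith⟩

lemma pw_coe (r : ℝ≥0) : (pw r : ℝ) = 1 - Real.exp (-(1 + r)) := rfl

lemma meas_pw : Measurable pw := Measurable.subtype_mk (by fun_prop)

/-- edges below a threshold -/
noncomputable def thr {n : ℕ} (p : Fin n → Fin n → I) (U : Fin n × Fin n → I) :
    Edge (Fin n) → Bool := fun e => decide (U e.1 < p e.1.1 e.1.2)

lemma gr_thr {n : ℕ} (p : Fin n → Fin n → I) (U : Fin n × Fin n → I) :
    gr (thr p U) = SimpleGraph.fromRel fun i j => i < j ∧ U (i, j) < p i j := by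
  unfold gr thr
  congr 1
  ext i j
  simp

lemma thr_fibre {n : ℕ} (r : Fin n → Fin n → ℝ≥0) (η : Edge (Fin n) → Bool) :
    volume (thr (fun i j => pw (r i j)) ⁻¹' {η}) ≤
      ENNReal.ofReal (wt (qq fun i j => 1 + r i j) η) := by
  let η' : Fin n → Fin n → Bool := fun i j => if h : i < j then η ⟨(i, j), h⟩ else false
  have h1 : ∀ e : Edge (Fin n), η' e.1.1 e.1.2 = η e := fun e => dif_pos e.2
  have hq := isP_qq (V := Fin n) (w := fun i j => 1 + r i j) fun _ _ => by positivity
  calc _ ≤ volume (Set.univ.pi fun p : Fin n × Fin n => if p.1 < p.2 then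
          (if η' p.1 p.2 = true then Set.Iio (pw (r p.1 p.2)) else Set.Ici (pw (r p.1 p.2)))
          else Set.univ) := by
        refine measure_mono fun U hU p _ => ?_
        obtain rfl : thr (fun i j => pw (r i j)) U = η := hU
        by_cases h : p.1 < p.2
        · simp only []
          rw [if_pos h, h1 ⟨p, h⟩]
          by_cases h2 : U p < pw (r p.1 p.2)
          · simp [thr, h2]
          · simpa [thr, h2] using not_lt.1 h2
        · simp [h]
    _ = ∏ i, ∏ j, if i < j then (if η' i j = true then ENNReal.ofReal (pw (r i j))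
          else ENNReal.ofReal (1 - pw (r i j))) else 1 := by
        rw [volume_pi_pi, Fintype.prod_prod_type]
        refine Finset.prod_congr rfl fun i _ => Finset.prod_congr rfl fun j _ => ?_
        split_ifs <;> simp
    _ = _ := by
        rw [prod_edge]
        unfold wt
        rw [ENNReal.ofReal_prod_of_nonneg fun e _ => by
          have := hq e
          split_ifs <;> linarith [this.1, this.2]]
        refine Finset.prod_congr rfl fun e _ => ?_
        rw [h1]
        split_ifs <;> simp [qq, pw_coe]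

variable {M G : ℕ → ℕ} {u : ∀ t, I → Fin (M t) → Fin (M t)} {g : ∀ t, I → Fin (G t)}

lemma Dig.bad (h : Dig u g) (t : ℕ) (hM : 0 < M t) {n : ℕ} (E : (Edge (Fin n) → Bool) → Prop)
    {δ : ℝ} (hE : ∑ v : Fin (M t) → Fin n → Fin (M t),
      Pr (qq fun _ _ => 1) (fun ω => E (conf v ⊔ ω)) ≤ ((M t : ℝ) ^ n) ^ M t * δ) :
    volume {ω : (Fin n → I) × (Fin n × Fin n → I) |
      E (conf (fun a i => u t (ω.1 i) a) ⊔ thr (fun _ _ => pw 0) ω.2)} ≤ ENNReal.ofReal δ := by
  classical
  have hM' : (0 : ℝ) < M t := by exact_mod_cast hM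
  have hq := isP_qq (V := Fin n) (w := fun _ _ => 1) fun _ _ => zero_le_one
  have h1 : ∀ v, volume (u t ⁻¹' {v}) = ENNReal.ofReal ((M t : ℝ) ^ M t)⁻¹ := fun v => by
    rw [← lint_eqi volume (h.mu t), h.one t (eqi v), ENNReal.ofReal_inv_of_pos (by positivity),
      ENNReal.ofReal_pow hM'.le, ENNReal.ofReal_natCast,
      Finset.sum_eq_single v (fun _ _ h2 => eqi_neg h2.symm) (by simp), eqi_pos rfl, one_mul]
  let S : Finset ((Fin (M t) → Fin n → Fin (M t)) × (Edge (Fin n) → Bool)) :=
    Finset.univ.filter fun p => E (conf p.1 ⊔ p.2)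
  calc _ ≤ volume (⋃ p ∈ S, (Set.univ.pi fun i => u t ⁻¹' {fun a => p.1 a i}) ×ˢ
          (thr (fun _ _ => pw 0) ⁻¹' {p.2})) := by
        refine measure_mono fun ω hω => ?_
        exact Set.mem_iUnion₂.2 ⟨(fun a i => u t (ω.1 i) a, thr (fun _ _ => pw 0) ω.2),
          Finset.mem_filter.2 ⟨Finset.mem_univ _, hω⟩, fun i _ => rfl, rfl⟩
    _ ≤ ∑ p ∈ S, ENNReal.ofReal ((((M t : ℝ) ^ M t)⁻¹) ^ n * wt (qq fun _ _ => 1) p.2) := by
        refine (measure_biUnion_finset_le _ _).trans (Finset.sum_le_sum fun p _ => ?_)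
        rw [Measure.volume_eq_prod, Measure.prod_prod, volume_pi_pi,
          ENNReal.ofReal_mul (by positivity), ENNReal.ofReal_pow (by positivity)]
        simp only [h1, Finset.prod_const, Finset.card_univ, Fintype.card_fin]
        exact mul_le_mul' le_rfl (by simpa using thr_fibre (fun _ _ => 0) p.2)
    _ ≤ _ := by
        rw [← ENNReal.ofReal_sum_of_nonneg fun p _ => mul_nonneg (by positivity) (wt_nonneg hq _),
          ← Finset.mul_sum, Finset.sum_filter, Fintype.sum_prod_type]
        refine ENNReal.ofReal_le_ofReal ?_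
        rw [inv_pow, inv_mul_le_iff₀ (by positivity), ← pow_mul, mul_comm (M t), pow_mul]
        refine le_trans (le_of_eq ?_) hE
        refine Finset.sum_congr rfl fun v _ => Finset.sum_congr rfl fun ω _ => ?_
        simp only []
        by_cases h2 : E (conf v ⊔ ω)
        · rw [if_pos h2, one_pos' h2, mul_one]
        · rw [if_neg h2, one_neg' h2, mul_zero]

/-- the graphon -/
noncomputable def WW (u : ∀ t, I → Fin (M t) → Fin (M t)) (g : ∀ t, I → Fin (G t)) (γ : ℝ≥0)
    (x y : I) : I := pw (γ * (HH u g x y).toNNReal)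

lemma chi_WW (γ : ℝ≥0) (t : ℕ) {n : ℕ} (X : Fin n → I) (U : Fin n × Fin n → I) {m : ℕ}
    (hm : 1 ≤ m) {r : ℝ} (hr : 0 ≤ r) (h : Avail (fun _ => ()) (fun _ => m) r
      (conf (fun a i => u t (X i) a) ⊔ thr (fun _ _ => pw 0) U)) :
    (chi (thr (fun i j => WW u g γ (X i) (X j)) U) : ℝ) ≤ n / m + DD G t * r := by
  have := chi_groups (fun i (s : Fin t) => g s (X i)) (thr (fun i j => WW u g γ (X i) (X j)) U)
    _ (fun e h1 h2 => ?_) hm hr h
  · rw [Fintype.card_pi, Fintype.card_fin] at this
    simp only [Fintype.card_fin] at this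
    rwa [Fin.prod_univ_eq_prod_range G t] at this
  · by_cases h3 : ∃ a, u t (X e.1.1) a = u t (X e.1.2) a
    · simp [conf, h3]
    · have h4 := HH_zero u g (t := t) (x := X e.1.1) (y := X e.1.2)
        (fun s hs => congrFun h1 ⟨s, hs⟩)
        (Finset.sum_eq_zero fun a _ => eqi_neg fun h5 => h3 ⟨a, h5⟩)
      simp only [thr, WW, h4, ENNReal.toNNReal_zero, mul_zero] at h2
      simp [thr, h2]

end Pool.Agent.Lib.EAF80
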