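import Pool.Agent.Lib.EAF80.High

/-! The graphon, its cheap and its expensive scales. -/

set_option autoImplicit false
open MeasureTheory Filter Topology Function unitInterval
open scoped ENNReal NNReal

namespace Pool.Agent.Lib.EAF80
open Pool.Agent.Lib.MP_eaf82e_pr

theorem exists_scales {e : ℝ} (he : 0 < e) (A : ℝ) (N : ℕ) :
    ∃ M G n n' : ℕ → ℕ, (∀ t, 2 ≤ M t) ∧ N ≤ M 0 ∧
    (∀ t, (DD M (t + 1) : ℝ) ^ 2 * Real.exp (Real.exp ((DD M (t + 1) : ℝ) ^ 2)) ≤ G t) ∧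
    (∀ t, t ≤ n' t ∧ (t + 1) * n' t ^ 2 ≤ G t ∧ A * DD M (t + 1) ≤ Real.log (n' t) ∧
      1 ≤ Real.log (n' t) ∧ (1 + Real.exp (-((1 + e) * Real.log (n' t)))) ^ n' t - 1 ≤ 1 / (t + 1)) ∧
    (∀ t, t ≤ n t) ∧ ∀ t, (∑ v : Fin (M t) → Fin (n t) → Fin (M t), Pr (qq fun _ _ => 1)
      (fun ω => ¬ Avail (fun _ => ()) (fun _ => ⌊Real.log (n t) / 5⌋₊)
        (n t / Real.log (n t) ^ 2) (conf v ⊔ ω)) ≤ ((M t : ℝ) ^ n t) ^ M t * (1 / (t + 1))) ∧
      1 ≤ ⌊Real.log (n t) / 5⌋₊ ∧ (n t : ℝ) / ⌊Real.log (n t) / 5⌋₊ +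
        DD G t * (n t / Real.log (n t) ^ 2) ≤ 22 * (n t / (2 * Real.log (n t))) := by
  choose nn h1 using fun (t Γ : ℕ) => ((cheap_fin (δ := 1 / (t + 1)) (by positivity)).and
    ((count_ev Γ).and ((eventually_ge_atTop t).and (eventually_ge_atTop (N + 2))))).exists
  choose nn' h1' using fun (t D : ℕ) => ((eventually_ge_atTop t).and ((ev_log (A * D)).and
    ((ev_log 1).and (heavy_ev he (δ := 1 / (t + 1)) (by positivity))))).exists
  let gf : ℕ → ℕ → ℕ := fun t D =>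
    ⌈(D : ℝ) ^ 2 * Real.exp (Real.exp ((D : ℝ) ^ 2))⌉₊ + (t + 1) * nn' t D ^ 2
  let st : ℕ → ℕ × ℕ := fun t => Nat.rec (1, 1)
    (fun t p => (p.1 * gf t (p.2 * nn t p.1 ^ 5), p.2 * nn t p.1 ^ 5)) t
  let M : ℕ → ℕ := fun t => nn t (st t).1 ^ 5
  let G : ℕ → ℕ := fun t => gf t ((st t).2 * M t)
  have h2 : ∀ t, DD G t = (st t).1 ∧ DD M t = (st t).2 := fun t => by
    induction t with
    | zero => exact ⟨rfl, rfl⟩
    | succ t ih =>
      rw [DD, DD, Finset.prod_range_succ, Finset.prod_range_succ, ← DD, ← DD, ih.1, ih.2]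
      exact ⟨rfl, rfl⟩
  have h3 : ∀ t, N + 2 ≤ M t := fun t => (h1 t _).2.2.2.trans (Nat.le_self_pow (by norm_num) _)
  refine ⟨M, G, fun t => nn t (st t).1, fun t => nn' t (DD M (t + 1)), fun t => by linarith [h3 t],
    by linarith [h3 0], fun t => ?_, fun t => ⟨(h1' t _).1, ?_, (h1' t _).2⟩,
    fun t => (h1 t _).2.2.1, fun t => ⟨(h1 t _).1 _ le_rfl, ?_⟩⟩
  · rw [(h2 (t + 1)).2]
    exact (Nat.le_ceil _).trans (Nat.cast_le.2 (Nat.le_add_right _ _))
  · simp only []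
    rw [(h2 (t + 1)).2]; exact Nat.le_add_left _ _
  · rw [(h2 t).1]; exact (h1 t _).2.1

theorem exists_graphon {γ : ℝ≥0} (hγ : 0 < γ) {e : ℝ} (he : 0 < e) (N : ℕ) :
    ∃ W : I → I → I, Measurable (uncurry W) ∧
    (∀ x y, W x y = W y x) ∧ (∃ c : ℝ, 0 < c ∧ ∀ x y, c ≤ W x y) ∧ (∀ x y, (W x y : ℝ) < 1) ∧
    (∀ s : ℝ, ∃ C : ℝ≥0, ∀ x, ∫⁻ y, ENNReal.ofReal ((1 - (W x y : ℝ)) ^ (-s)) ≤ C) ∧
    (∀ (ν : Measure I) [IsProbabilityMeasure ν] (C : ℝ≥0∞), C ≠ ∞ → ν ≤ C • volume →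
      (γ : ℝ≥0∞) ≤ ∫⁻ x, ∫⁻ y, ENNReal.ofReal (Real.log (1 / (1 - (W x y : ℝ)))) ∂ν ∂ν) ∧
    (∀ x, ∫⁻ y, ENNReal.ofReal (Real.log (1 / (1 - (W x y : ℝ)))) ≤ 1 + γ * (1 + 2 * (N : ℝ≥0∞)⁻¹)) ∧
    (∃ n : ℕ → ℕ, Tendsto n atTop atTop ∧ Tendsto (fun k =>
      volume {ω : (Fin (n k) → I) × (Fin (n k) × Fin (n k) → I) |
        22 * (n k / (2 * Real.log (n k))) < ((SimpleGraph.fromRel fun i j : Fin (n k) =>
          i < j ∧ ω.2 (i, j) < W (ω.1 i) (ω.1 j)).chromaticNumber.toNat : ℝ)}) atTop (𝓝 0)) ∧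
    ∃ n : ℕ → ℕ, Tendsto n atTop atTop ∧ Tendsto (fun k =>
      volume {ω : (Fin (n k) → I) × (Fin (n k) × Fin (n k) → I) |
        ((SimpleGraph.fromRel fun i j : Fin (n k) => i < j ∧ ω.2 (i, j) < W (ω.1 i) (ω.1 j)
          ).chromaticNumber.toNat : ℝ) < γ / (1 + 2 * e) * (n k / (2 * Real.log (n k)))})
      atTop (𝓝 0) := by
  obtain ⟨M, G, n, n', hM, hN, hG, hn', hn, hc⟩ := exists_scales he (γ / (2 * e)) N
  have hG0 : ∀ t, 0 < G t := fun t => by
    have h1 : (0 : ℝ) < DD M (t + 1) := by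
      exact_mod_cast lt_of_lt_of_le (by positivity) (pow_le_DD hM (t + 1))
    have h2 : (0 : ℝ) < G t := lt_of_lt_of_le (by positivity) (hG t)
    exact_mod_cast h2
  obtain ⟨u, g, h⟩ := exists_dig (M := M) (fun t => by linarith [hM t]) hG0
  have hH := meas_HH (u := u) (fun t a => (measurable_pi_apply a).comp (h.mu t)) h.mg
  have hW : ∀ x y, 1 - (WW u g γ x y : ℝ) = Real.exp (-(1 + γ * (HH u g x y).toReal)) :=
    fun x y => by simp [WW, pw_coe, ENNReal.toReal]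
  have hr : ∀ x y, 0 ≤ γ * (HH u g x y).toReal := fun x y => by positivity
  have hL : ∀ x y, ENNReal.ofReal (Real.log (1 / (1 - (WW u g γ x y : ℝ)))) =
      1 + γ * HH u g x y := fun x y => by
    rw [hW, one_div, Real.log_inv, Real.log_exp, neg_neg, ENNReal.ofReal_add zero_le_one (hr x y),
      ENNReal.ofReal_mul γ.coe_nonneg, ENNReal.ofReal_toReal (HH_ne_top x y),
      ENNReal.ofReal_coe_nnreal, ENNReal.ofReal_one]
  have h1 := ENNReal.tendsto_ofReal (tendsto_one_div_add_atTop_nhds_zero_nat (𝕜 := ℝ))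
  rw [ENNReal.ofReal_zero] at h1
  refine ⟨WW u g γ, meas_pw.comp (hH.ennreal_toNNReal.const_mul γ), fun x y => by
    rw [WW, HH_comm]; rfl, ⟨1 - Real.exp (-1), by simp, fun x y => ?_⟩, fun x y => ?_,
    fun s => ?_, fun ν _ C hC hν => ?_, fun x => ?_, ⟨n, tendsto_atTop_mono hn tendsto_id, ?_⟩,
    n', tendsto_atTop_mono (fun t => (hn' t).1) tendsto_id, ?_⟩
  · have := Real.exp_le_exp.2 (show -(1 + γ * (HH u g x y).toReal) ≤ -1 by linarith [hr x y])
    linarith [hW x y]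
  · linarith [hW x y, Real.exp_pos (-(1 + γ * (HH u g x y).toReal))]
  · obtain ⟨C, hC⟩ := h.moment hM hG (θ := |s| * γ) (by positivity)
    refine ⟨(Real.exp |s|).toNNReal * C, fun x => ?_⟩
    calc _ ≤ ∫⁻ y, ENNReal.ofReal (Real.exp |s|) *
            ENNReal.ofReal (Real.exp (|s| * γ * (HH u g x y).toReal)) := by
          refine lintegral_mono fun y => ?_
          rw [← ENNReal.ofReal_mul (Real.exp_pos _).le, hW, ← Real.exp_mul, ← Real.exp_add]
          refine ENNReal.ofReal_le_ofReal (Real.exp_le_exp.2 ?_)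
          nlinarith [mul_le_mul_of_nonneg_right (le_abs_self s) (hr x y), le_abs_self s]
      _ ≤ _ := by
          rw [lintegral_const_mul' _ _ ENNReal.ofReal_ne_top, ENNReal.coe_mul]
          exact mul_le_mul' le_rfl (hC x)
  · calc (γ : ℝ≥0∞) ≤ γ * En ν (HH u g) := le_mul_of_one_le_right' (h.energy hM hG ν hC hν)
      _ ≤ _ := by
        rw [En, ← lintegral_const_mul' _ _ ENNReal.coe_ne_top]
        refine lintegral_mono fun x => ?_
        simp only []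
        rw [← lintegral_const_mul' _ _ ENNReal.coe_ne_top]
        refine lintegral_mono fun y => ?_
        simp only []
        rw [hL]
        exact le_add_self
  · simp only [hL]
    rw [lintegral_add_left measurable_const, lintegral_const_mul' _ _ ENNReal.coe_ne_top,
      lintegral_const, measure_univ, mul_one]
    refine add_le_add le_rfl (mul_le_mul' le_rfl ((h.degree hM hG x).trans ?_))
    gcongr
  · refine tendsto_of_tendsto_of_tendsto_of_le_of_le tendsto_const_nhds h1 (fun _ => bot_le)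
      fun t => ?_
    refine le_trans (measure_mono ?_) (h.bad t (by linarith [hM t]) (fun ω => ¬ Avail (fun _ => ())
      (fun _ => ⌊Real.log (n t) / 5⌋₊) (n t / Real.log (n t) ^ 2) ω) (hc t).1)
    intro ω hω h2
    have h3 := (chi_WW (g := g) γ t ω.1 ω.2 (hc t).2.1 (by positivity) h2).trans (hc t).2.2
    rw [chi, gr_thr] at h3
    exact absurd hω (not_lt.2 h3)
  · have h2 := h1.add h1
    rw [add_zero] at h2
    refine tendsto_of_tendsto_of_tendsto_of_le_of_le tendsto_const_nhds h2 (fun _ => bot_le)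
      fun t => ?_
    obtain ⟨-, a1, a2, a3, a4⟩ := hn' t
    have hγ' : (0 : ℝ) < γ := hγ
    refine le_trans (measure_mono fun ω hω => ?_) ((h.high hM hγ t (n' t)
      ((1 + e) * Real.log (n' t)) (by positivity)).trans
        (add_le_add ?_ (ENNReal.ofReal_le_ofReal a4)))
    · rw [Set.mem_ofPred_eq, chi, gr_thr]
      refine lt_of_lt_of_le hω ?_
      rw [div_mul_eq_mul_div, div_le_iff₀ (by positivity)] at a2
      rw [div_mul_div_comm, mul_comm (γ : ℝ), ← div_div_eq_mul_div]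
      refine div_le_div_of_nonneg_left (by positivity) (by positivity) ?_
      rw [le_div_iff₀ hγ', add_mul, div_mul_cancel₀ _ hγ'.ne']
      nlinarith
    · rw [one_div, ENNReal.ofReal_inv_of_pos (by positivity), ← div_eq_mul_inv,
        ENNReal.le_inv_iff_mul_le, ← ENNReal.mul_div_right_comm]
      refine ENNReal.div_le_of_le_mul ?_
      rw [one_mul, mul_comm, ← Nat.cast_succ, ENNReal.ofReal_natCast]
      exact_mod_cast a1

end Pool.Agent.Lib.EAF80
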