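import Mathlib

/-! A telescoping sum of positive semidefinite kernels. -/

set_option autoImplicit false
set_option linter.unusedSectionVars false
open MeasureTheory Filter Topology Function
open scoped ENNReal NNReal

namespace Pool.Agent.Lib.EAF80

open Classical in
/-- indicator of equality -/
noncomputable def eqi {α : Type*} (a b : α) : ℝ≥0∞ := if a = b then 1 else 0

lemma eqi_pos {α : Type*} {a b : α} (h : a = b) : eqi a b = 1 := if_pos h
lemma eqi_neg {α : Type*} {a b : α} (h : a ≠ b) : eqi a b = 0 := if_neg h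
lemma eqi_comm {α : Type*} (a b : α) : eqi a b = eqi b a := by
  by_cases h : a = b
  · rw [h]
  · rw [eqi_neg h, eqi_neg (Ne.symm h)]
lemma eqi_le {α : Type*} (a b : α) : eqi a b ≤ 1 := by unfold eqi; split_ifs <;> simp
lemma eqi_mul {α β γ : Type*} {a a' : α} {b b' : β} {c c' : γ} (h : c = c' ↔ a = a' ∧ b = b') :
    eqi a a' * eqi b b' = eqi c c' := by
  by_cases h1 : a = a' <;> by_cases h2 : b = b' <;> simp [eqi, h, h1, h2]

variable {X : Type*} [MeasurableSpace X]

/-- energy of a kernel -/
noncomputable def En (ν : Measure X) (R : X → X → ℝ≥0∞) : ℝ≥0∞ := ∫⁻ x, ∫⁻ y, R x y ∂ν ∂ν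

section
variable {α : Type*} [Countable α] [MeasurableSpace α] [MeasurableSingletonClass α]

lemma meas_eqi {f : X → α} (hf : Measurable f) :
    Measurable (uncurry fun x y => eqi (f x) (f y)) :=
  (measurable_of_countable fun p : α × α => eqi p.1 p.2).comp (hf.prodMap hf)

lemma lint_eqi (ν : Measure X) {f : X → α} (hf : Measurable f) (a : α) :
    ∫⁻ y, eqi a (f y) ∂ν = ν (f ⁻¹' {a}) := by
  rw [← lintegral_indicator_one (hf (measurableSet_singleton a))]
  refine lintegral_congr fun y => ?_
  by_cases h : a = f y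
  · simp [eqi, h]
  · simp [eqi, h, Ne.symm h]

lemma En_eqi (ν : Measure X) {f : X → α} (hf : Measurable f) :
    En ν (fun x y => eqi (f x) (f y)) = ∑' a, ν (f ⁻¹' {a}) ^ 2 := by
  unfold En
  simp_rw [lint_eqi ν hf]
  rw [← lintegral_map (f := fun a => ν (f ⁻¹' {a})) (measurable_of_countable _) hf,
    lintegral_countable']
  exact tsum_congr fun a => by rw [Measure.map_apply hf (measurableSet_singleton a), sq]
end

lemma En_split (ν : Measure X) {f : X → ℕ} (hf : Measurable f) {N : ℕ} {h : X → Fin N}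
    (hh : Measurable h) : En ν (fun x y => eqi (f x) (f y)) ≤
      N * En ν (fun x y => eqi (f x) (f y) * eqi (h x) (h y)) := by
  have h1 : ∀ x y, eqi (f x) (f y) * eqi (h x) (h y) = eqi (f x, h x) (f y, h y) :=
    fun x y => eqi_mul Prod.ext_iff
  simp_rw [h1]
  rw [En_eqi ν hf, En_eqi ν (hf.prodMk hh), ENNReal.tsum_prod', ← ENNReal.tsum_mul_left]
  refine ENNReal.tsum_le_tsum fun a => ?_
  have h2 := sum_measure_preimage_singleton (μ := ν.restrict (f ⁻¹' {a})) Finset.univ (f := h)
    fun b _ => hh (measurableSet_singleton b)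
  simp only [Finset.coe_univ, Set.preimage_univ, Measure.restrict_apply_univ] at h2
  have h3 := ENNReal.rpow_sum_le_const_mul_sum_rpow Finset.univ
    (fun b => ν.restrict (f ⁻¹' {a}) (h ⁻¹' {b})) (p := 2) one_le_two
  rw [h2] at h3
  rw [tsum_fintype]
  convert h3 using 2 with b
  · exact (ENNReal.rpow_two _).symm
  · norm_num
  · refine Finset.sum_congr rfl fun b _ => ?_
    rw [ENNReal.rpow_two, Measure.restrict_apply (hh (measurableSet_singleton b))]
    congr 2
    ext x; simp [and_comm]

lemma En_add (ν : Measure X) [SFinite ν] {R S : X → X → ℝ≥0∞} (hR : Measurable (uncurry R)) :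
    En ν (fun x y => R x y + S x y) = En ν R + En ν S := by
  unfold En
  rw [← lintegral_add_left hR.lintegral_prod_right]
  exact lintegral_congr fun x => lintegral_add_left hR.of_uncurry_left _

lemma En_sum (ν : Measure X) [SFinite ν] {ι : Type*} (s : Finset ι) {R : ι → X → X → ℝ≥0∞}
    (hR : ∀ i, Measurable (uncurry (R i))) :
    En ν (fun x y => ∑ i ∈ s, R i x y) = ∑ i ∈ s, En ν (R i) := by
  unfold En
  rw [← lintegral_finsetSum _ fun i _ => (hR i).lintegral_prod_right]
  exact lintegral_congr fun x => lintegral_finsetSum _ fun i _ => (hR i).of_uncurry_left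

lemma En_mono (ν : Measure X) {R S : X → X → ℝ≥0∞} (h : ∀ x y, R x y ≤ S x y) :
    En ν R ≤ En ν S := lintegral_mono fun x => lintegral_mono fun y => h x y

/-- finite sums of equality kernels -/
def Psd (R : X → X → ℝ≥0∞) : Prop :=
  ∃ (ι : Type) (_ : Fintype ι) (f : ι → X → ℕ), (∀ i, Measurable (f i)) ∧
    ∀ x y, R x y = ∑ i, eqi (f i x) (f i y)

lemma Psd.meas {R : X → X → ℝ≥0∞} (h : Psd R) : Measurable (uncurry R) := by
  obtain ⟨ι, _, f, h1, h2⟩ := h
  have : uncurry R = fun p => ∑ i, eqi (f i p.1) (f i p.2) := funext fun p => h2 _ _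
  rw [this]
  exact Finset.measurable_sum _ fun i _ => meas_eqi (h1 i)

lemma Psd.mul {R : X → X → ℝ≥0∞} (hR : Psd R) {κ : Type} [Fintype κ] {N : ℕ} {h : κ → X → Fin N}
    (hh : ∀ a, Measurable (h a)) : Psd fun x y => R x y * ∑ a, eqi (h a x) (h a y) := by
  obtain ⟨ι, _, f, h1, h2⟩ := hR
  refine ⟨ι × κ, inferInstance, fun p x => Nat.pair (f p.1 x) (h p.2 x), fun p =>
    (measurable_of_countable fun q : ℕ × Fin N => Nat.pair q.1 q.2).comp ((h1 _).prodMk (hh _)),
    fun x y => ?_⟩
  simp only []
  rw [h2, Finset.sum_mul_sum, Fintype.sum_prod_type]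
  exact Finset.sum_congr rfl fun i _ => Finset.sum_congr rfl fun a _ =>
    eqi_mul (by rw [Nat.pair_eq_pair, Fin.ext_iff])

lemma Psd.En_le (ν : Measure X) [SFinite ν] {R : X → X → ℝ≥0∞} (hR : Psd R) {N : ℕ} (hN : 0 < N)
    {h : Fin N → X → Fin N} (hh : ∀ a, Measurable (h a)) :
    En ν R ≤ En ν fun x y => R x y * ∑ a, eqi (h a x) (h a y) := by
  obtain ⟨ι, _, f, h1, h2⟩ := hR
  obtain rfl : R = fun x y => ∑ i, eqi (f i x) (f i y) := by ext x y; exact h2 x y
  simp_rw [Finset.sum_mul_sum]
  have hm : ∀ i a, Measurable (uncurry fun x y => eqi (f i x) (f i y) * eqi (h a x) (h a y)) :=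
    fun i a => (meas_eqi (h1 i)).mul (meas_eqi (hh a))
  rw [En_sum ν _ fun i => meas_eqi (h1 i),
    En_sum ν _ (R := fun i x y => ∑ a, eqi (f i x) (f i y) * eqi (h a x) (h a y))
      fun i => Finset.measurable_sum _ fun a _ => hm i a]
  refine Finset.sum_le_sum fun i _ => ?_
  rw [En_sum ν _ (hm i), ← ENNReal.mul_le_mul_iff_right (a := N) (by simpa using hN.ne') (by simp),
    Finset.mul_sum]
  refine le_trans (le_of_eq ?_) (Finset.sum_le_sum fun a _ => En_split ν (h1 i) (hh a))
  simp

section
variable {M G : ℕ → ℕ} (u : ∀ t, X → Fin (M t) → Fin (M t)) (g : ∀ t, X → Fin (G t))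

/-- number of letters in which the words of level `t` agree -/
noncomputable def kk (t : ℕ) (x y : X) : ℝ≥0∞ := ∑ a, eqi (u t x a) (u t y a)

/-- product of the first `t` levels -/
noncomputable def FF : ℕ → X → X → ℝ≥0∞
  | 0 => fun _ _ => 1
  | t + 1 => fun x y => FF t x y * kk u t x y * eqi (g t x) (g t y)

/-- weight of level `t` -/
noncomputable def tm (t : ℕ) (x y : X) : ℝ≥0∞ :=
  if g t x = g t y then 0 else FF u g t x y * kk u t x y

/-- the unbounded part of the kernel -/
noncomputable def HH (x y : X) : ℝ≥0∞ := ∑' t, tm u g t x y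

omit [MeasurableSpace X] in
lemma kk_le (t : ℕ) (x y : X) : kk u t x y ≤ M t :=
  (Finset.sum_le_sum fun _ _ => eqi_le _ _).trans (by simp)

omit [MeasurableSpace X] in
lemma FF_le (t : ℕ) (x y : X) : FF u g t x y ≤ (∏ s ∈ Finset.range t, M s : ℕ) := by
  induction t with
  | zero => simp [FF]
  | succ t ih =>
    rw [Finset.prod_range_succ, Nat.cast_mul]
    exact (mul_le_of_le_one_right' (eqi_le _ _)).trans (mul_le_mul' ih (kk_le u t x y))

omit [MeasurableSpace X] in
lemma FF_zero {s t : ℕ} {x y : X} (h : FF u g (s + 1) x y = 0) (hst : s < t) :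
    FF u g t x y = 0 := by
  induction hst with
  | refl => exact h
  | step _ ih => simp [FF, ih]

omit [MeasurableSpace X] in
lemma HH_comm (x y : X) : HH u g x y = HH u g y x := by
  have h1 : ∀ t, kk u t x y = kk u t y x := fun t => by simp only [kk, eqi_comm (u t x _)]
  have h2 : ∀ t, FF u g t x y = FF u g t y x := fun t => by
    induction t with
    | zero => rfl
    | succ t ih => simp only [FF, ih, h1, eqi_comm (g t x)]
  simp only [HH, tm, h1, h2, eq_comm (a := g _ x)]

omit [MeasurableSpace X] in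
lemma HH_zero {t : ℕ} {x y : X} (h : ∀ s < t, g s x = g s y) (hk : kk u t x y = 0) :
    HH u g x y = 0 := by
  refine ENNReal.tsum_eq_zero.2 fun s => ?_
  unfold tm
  rcases lt_trichotomy s t with h1 | rfl | h1
  · exact if_pos (h s h1)
  · simp [hk]
  · simp [FF_zero u g (s := t) (x := x) (y := y) (by simp [FF, hk]) h1]

omit [MeasurableSpace X] in
lemma HH_le (x y : X) : ∃ t, (∀ s < t, g s x = g s y) ∧
    HH u g x y ≤ (∏ s ∈ Finset.range t, M s : ℕ) * kk u t x y := by
  by_cases h : ∃ t, g t x ≠ g t y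
  · refine ⟨Nat.find h, fun s hs => not_not.1 (Nat.find_min h hs), ?_⟩
    unfold HH
    rw [tsum_eq_single (Nat.find h)]
    · unfold tm
      rw [if_neg (Nat.find_spec h)]
      exact mul_le_mul' (FF_le u g _ x y) le_rfl
    · intro s hs
      unfold tm
      rcases lt_or_gt_of_ne hs with h1 | h1
      · exact if_pos (not_not.1 (Nat.find_min h h1))
      · have h2 : FF u g (Nat.find h + 1) x y = 0 := by
          rw [FF]; simp only [eqi_neg (Nat.find_spec h), mul_zero]
        simp [FF_zero u g h2 h1]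
  · refine ⟨0, by simp, le_of_eq_of_le (ENNReal.tsum_eq_zero.2 fun s => if_pos ?_) bot_le⟩
    exact not_not.1 fun h1 => h ⟨s, h1⟩

variable {u g} (hu : ∀ t a, Measurable fun x => u t x a) (hg : ∀ t, Measurable (g t))
include hu hg

lemma psd_FF (t : ℕ) : Psd (FF u g t) := by
  induction t with
  | zero => exact ⟨Unit, inferInstance, fun _ _ => 0, fun _ => measurable_const,
      fun x y => by simp [FF, eqi]⟩
  | succ t ih =>
    have := (ih.mul (hu t)).mul (κ := Unit) (h := fun _ => g t) fun _ => hg t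
    simp only [Fintype.sum_unique] at this
    exact this

lemma meas_tm (t : ℕ) : Measurable (uncurry (tm u g t)) :=
  Measurable.ite (measurableSet_eq_fun ((hg t).comp measurable_fst) ((hg t).comp measurable_snd))
    measurable_const ((psd_FF hu hg t).mul (hu t)).meas

lemma meas_HH : Measurable (uncurry (HH u g)) :=
  Measurable.tsum fun t => meas_tm hu hg t

theorem energy (hM : ∀ t, 0 < M t) (ν : Measure X) [IsProbabilityMeasure ν] (T : ℕ) :
    1 ≤ En ν (HH u g) + En ν (FF u g T) := by
  have key : 1 ≤ En ν (fun x y => ∑ t ∈ Finset.range T, tm u g t x y) + En ν (FF u g T) := by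
    induction T with
    | zero => simp [En, FF]
    | succ T ih =>
      refine ih.trans ?_
      simp_rw [Finset.sum_range_succ]
      rw [En_add ν (R := fun x y => ∑ t ∈ Finset.range T, tm u g t x y)
        (Finset.measurable_sum _ fun t _ => meas_tm hu hg t), add_assoc,
        ← En_add ν (meas_tm hu hg T)]
      refine add_le_add le_rfl (((psd_FF hu hg T).En_le ν (hM T) (hu T)).trans
        (En_mono ν fun x y => ?_))
      by_cases h : g T x = g T y
      · simp [tm, FF, h, eqi, kk]
      · simp [tm, FF, h, eqi, kk]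
  exact key.trans (add_le_add (En_mono ν fun x y => ENNReal.sum_le_tsum _) le_rfl)
end

end Pool.Agent.Lib.EAF80
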